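import Pool.Agent.Helper98.EX.Stmts3

/-! EX, module CUT: from the discrete statement to the ratio of mixing times -/

namespace Pool.Agent.Helper98.EX

open Finset

theorem cut_adm {w : ℕ → ℝ} (hw : ∀ x, 0 < w x ∧ w x ≤ 1) (N : ℕ) : Adm N (rE w) (lE w) := by
  intro x _ _
  refine ⟨(hw _).1, (hw _).2, ?_, ?_⟩
  · have := (hw x).2
    simp only [lE]; linarith
  · have := (hw x).1
    simp only [lE]; linarith

theorem cut_poi_nonneg {lam : ℝ} (hl : 0 ≤ lam) (m : ℕ) : 0 ≤ poi lam m := by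
  unfold poi; positivity

/-- lower tail -/
theorem cut_low (hP : ST_POITAIL) {lam : ℝ} {m2 : ℕ} (hl : (m2 : ℝ) < lam) :
    ∑' m : ℕ, (if (m : ℝ) < m2 then poi lam m else 0) ≤ lam / (lam - m2) ^ 2 := by
  have hl0 : 0 ≤ lam := le_trans (Nat.cast_nonneg m2) hl.le
  obtain ⟨h1, h2, _⟩ := hP lam hl0
  refine le_trans ?_ (h2 m2 hl)
  have hs : ∀ (p : ℕ → Prop) [DecidablePred p],
      Summable (fun m : ℕ => if p m then poi lam m else 0) := by
    intro p _
    refine Summable.of_nonneg_of_le (fun m => ?_) (fun m => ?_) h1.summable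
    · split_ifs
      · exact cut_poi_nonneg hl0 m
      · exact le_rfl
    · split_ifs
      · exact le_rfl
      · exact cut_poi_nonneg hl0 m
  refine Summable.tsum_le_tsum (fun m => ?_) (hs (fun m => (m : ℝ) < m2))
    (hs (fun m => (m : ℝ) ≤ m2))
  by_cases h : (m : ℝ) < m2
  · rw [if_pos h, if_pos h.le]
  · rw [if_neg h]
    split_ifs
    · exact cut_poi_nonneg hl0 m
    · exact le_rfl

/-- averaging a nondecreasing sequence of probabilities -/
theorem cut_avg (hP : ST_POITAIL) {lam : ℝ} (hl0 : 0 ≤ lam) {m1 : ℕ} (hl : lam < m1)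
    (p : ℕ → ℝ) (hp0 : ∀ m, 0 ≤ p m) (hp1 : ∀ m, p m ≤ 1) (hmono : ∀ m, m ≤ m1 → p m ≤ p m1) :
    ∑' m : ℕ, poi lam m * p m ≤ p m1 + lam / (m1 - lam) ^ 2 := by
  obtain ⟨h1, _, h3⟩ := hP lam hl0
  have hs1 : Summable (fun m : ℕ => poi lam m * p m) := by
    refine Summable.of_nonneg_of_le (fun m => mul_nonneg (cut_poi_nonneg hl0 m) (hp0 m))
      (fun m => ?_) h1.summable
    exact mul_le_of_le_one_right (cut_poi_nonneg hl0 m) (hp1 m)
  have hs2 : Summable (fun m : ℕ => poi lam m * p m1) := h1.summable.mul_right _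
  have hs3 : Summable (fun m : ℕ => if (m1 : ℝ) ≤ (m : ℝ) then poi lam m else 0) := by
    refine Summable.of_nonneg_of_le (fun m => ?_) (fun m => ?_) h1.summable
    · split_ifs
      · exact cut_poi_nonneg hl0 m
      · exact le_rfl
    · split_ifs
      · exact le_rfl
      · exact cut_poi_nonneg hl0 m
  calc ∑' m : ℕ, poi lam m * p m
      ≤ ∑' m : ℕ, (poi lam m * p m1 + (if (m1 : ℝ) ≤ (m : ℝ) then poi lam m else 0)) := by
        refine Summable.tsum_le_tsum (fun m => ?_) hs1 (hs2.add hs3)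
        by_cases h : (m1 : ℝ) ≤ (m : ℝ)
        · rw [if_pos h]
          have a1 : poi lam m * p m ≤ poi lam m :=
            mul_le_of_le_one_right (cut_poi_nonneg hl0 m) (hp1 m)
          have a2 : 0 ≤ poi lam m * p m1 := mul_nonneg (cut_poi_nonneg hl0 m) (hp0 m1)
          linarith
        · rw [if_neg h, add_zero]
          have hm : m ≤ m1 := by
            have : (m : ℝ) < m1 := not_le.mp h
            exact_mod_cast this.le
          exact mul_le_mul_of_nonneg_left (hmono m hm) (cut_poi_nonneg hl0 m)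
    _ = ∑' m : ℕ, poi lam m * p m1 + ∑' m : ℕ, (if (m1 : ℝ) ≤ (m : ℝ) then poi lam m else 0) :=
        Summable.tsum_add hs2 hs3
    _ ≤ p m1 + lam / (m1 - lam) ^ 2 := by
        have e1 : ∑' m : ℕ, poi lam m * p m1 = p m1 := by
          rw [tsum_mul_right, h1.tsum_eq, one_mul]
        rw [e1]
        have := h3 m1 hl
        linarith

/-- constants -/
theorem cut_const {ε δ c : ℝ} (hε : 0 < ε) (hδ : 0 < δ) (hc : 0 < c) :
    ∃ N0 : ℕ, 1 ≤ N0 ∧ ∀ N : ℕ, N0 ≤ N →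
      2 * Real.sqrt (c / ε) * N + 2 ≤ c * (N : ℝ) ^ 2 ∧ 8 / (ε * δ ^ 2) ≤ c * (N : ℝ) ^ 2 ∧
      3 / δ ≤ c * (N : ℝ) ^ 2 := by
  set K : ℝ := (2 * Real.sqrt (c / ε) + 2 + 8 / (ε * δ ^ 2) + 3 / δ) / c with hK
  have hK0 : 0 ≤ K := by positivity
  refine ⟨⌈K⌉₊ + 1, by omega, fun N hN => ?_⟩
  have h1 : K ≤ N := by
    have a := Nat.le_ceil K
    have b : ((⌈K⌉₊ : ℕ) : ℝ) ≤ N := by exact_mod_cast (by omega : ⌈K⌉₊ ≤ N)
    linarith
  have h2 : (1 : ℝ) ≤ N := by exact_mod_cast (by omega : 1 ≤ N)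
  have h3 : 2 * Real.sqrt (c / ε) + 2 + 8 / (ε * δ ^ 2) + 3 / δ ≤ c * N := by
    rw [hK, div_le_iff₀ hc] at h1
    linarith
  have hs : 0 ≤ Real.sqrt (c / ε) := Real.sqrt_nonneg _
  have h8 : 0 ≤ 8 / (ε * δ ^ 2) := by positivity
  have h9 : 0 ≤ 3 / δ := by positivity
  have h4 : (2 * Real.sqrt (c / ε) + 2 + 8 / (ε * δ ^ 2) + 3 / δ) * N ≤ c * (N : ℝ) ^ 2 := by
    have := mul_le_mul_of_nonneg_right h3 (by linarith : (0 : ℝ) ≤ N)
    nlinarith
  refine ⟨?_, ?_, ?_⟩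
  · nlinarith [mul_nonneg h8 (by linarith : (0 : ℝ) ≤ N), mul_nonneg h9 (by linarith : (0 : ℝ) ≤ N)]
  · nlinarith [mul_nonneg h9 (by linarith : (0 : ℝ) ≤ N), mul_nonneg hs (by linarith : (0 : ℝ) ≤ N),
      mul_nonneg h8 (by linarith : (0 : ℝ) ≤ (N : ℝ) - 1)]
  · nlinarith [mul_nonneg h8 (by linarith : (0 : ℝ) ≤ N), mul_nonneg hs (by linarith : (0 : ℝ) ≤ N),
      mul_nonneg h9 (by linarith : (0 : ℝ) ≤ (N : ℝ) - 1)]

/-- a tail bound `lam / d ^ 2 ≤ b` -/
theorem cut_div {lam d b : ℝ} (hd : 0 < d) (h : lam ≤ b * d ^ 2) : lam / d ^ 2 ≤ b := by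
  rw [div_le_iff₀ (by positivity)]
  exact h

theorem cut_extC_total (hS : ST_STC) {N k : ℕ} {w : ℕ → ℝ} {π : Conf N k → ℝ} (hN : 1 ≤ N)
    (hk : k ≤ N) (hw : ∀ x, 0 < w x ∧ w x ≤ 1) (hπ : IsStatC w N k π) (A : Set (Cfg N)) :
    ∑ η, extC π η * ind A η = 1 - ∑ η, extC π η * ind Aᶜ η := by
  have h := ((hS N k w hN hk hw).2.2 π hπ).total
  have : ∑ η, extC π η * ind A η + ∑ η, extC π η * ind Aᶜ η = 1 := by
    rw [← Finset.sum_add_distrib, ← h]
    refine Finset.sum_congr rfl fun η _ => ?_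
    rw [ind_compl]; ring
  linarith

/-- the set of the definition of the mixing time is nonempty -/
theorem cut_nonempty (hU : ST_TVUP) (hP : ST_POITAIL) (hH : ST_NH0) {N k : ℕ} {w : ℕ → ℝ}
    {π : Conf N k → ℝ} {ε : ℝ} (hN : 1 ≤ N) (hk : k ≤ N) (hw : ∀ x, 0 < w x ∧ w x ≤ 1)
    (hπ : IsStatC w N k π) (hε : 0 < ε) :
    {t : ℝ | 0 ≤ t ∧ ∀ ψ : Conf N k, tv (Pt w N k t ψ) π < ε}.Nonempty := by
  obtain ⟨m2, hm2⟩ := hH N k (rE w) (lE w) (ε / 2) hN hk (cut_adm hw N) (by positivity)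
  have hNr : (0 : ℝ) < N := by exact_mod_cast hN
  set lam : ℝ := 2 * m2 + 16 / ε with hlam
  have h16 : 0 < 16 / ε := by positivity
  have hm0 : (0 : ℝ) ≤ m2 := Nat.cast_nonneg m2
  have hl0 : 0 < lam := by positivity
  refine ⟨lam / (2 * N), by positivity, fun ψ => ?_⟩
  have h1 := hU N k w π (lam / (2 * N)) ψ m2 (ε / 2) hN hk hw hπ (by positivity) hm2
  have e1 : 2 * (N : ℝ) * (lam / (2 * N)) = lam := by field_simp
  rw [e1] at h1
  have h2 := cut_low hP (lam := lam) (m2 := m2) (by linarith)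
  have h3 : lam / (lam - m2) ^ 2 ≤ ε / 4 := by
    refine cut_div (by linarith) ?_
    have a1 : lam / 2 ≤ lam - m2 := by linarith
    have a2 : (lam / 2) ^ 2 ≤ (lam - m2) ^ 2 := by
      apply pow_le_pow_left₀ (by positivity) a1
    have a3 : 16 ≤ ε * lam := by
      have : ε * (16 / ε) = 16 := by field_simp
      nlinarith [mul_nonneg hε.le hm0]
    nlinarith
  linarith

theorem st_CUT (hU : ST_TVUP) (hL : ST_TVLOW) (hP : ST_POITAIL) (hT : ST_TIME) (hH : ST_NH0)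
    (hS : ST_STC) : ST_CUT := by
  intro ε δ c hε hε2 hδ hδ1 hc
  obtain ⟨N0, hN01, hN0⟩ := cut_const hε hδ hc
  refine ⟨N0, fun N k w π A hN hk hw hπ hInc hA hm => ?_⟩
  obtain ⟨k1, k2, k3⟩ := hN0 N hN
  have hN1 : 1 ≤ N := le_trans hN01 hN
  have hNr : (0 : ℝ) < N := by exact_mod_cast hN1
  have hadm := cut_adm hw N
  -- the sets
  set S : ℝ → Set ℝ := fun e => {t : ℝ | 0 ≤ t ∧ ∀ ψ : Conf N k, tv (Pt w N k t ψ) π < e} with hSdef
  have hbdd : ∀ e, BddBelow (S e) := fun e => ⟨0, fun t ht => ht.1⟩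
  have hne : ∀ e, 0 < e → (S e).Nonempty := fun e he => cut_nonempty hU hP hH hN1 hk hw hπ he
  have hsub : S ε ⊆ S (1 - ε) := fun t ht => ⟨ht.1, fun ψ => lt_trans (ht.2 ψ) (by linarith)⟩
  have hle : tmix w N k π (1 - ε) ≤ tmix w N k π ε :=
    csInf_le_csInf (hbdd _) (hne ε hε) hsub
  -- the lowest configuration in the sector
  have hbotc : (Finset.univ.filter (fun i => bot N k i = true)).card = k := by
    rw [← (hS N k w hN1 hk hw).1 (bot N k)]
    exact ht_bot_zero hk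
  set ψ0 : Conf N k := ⟨bot N k, hbotc⟩ with hψ0
  -- probabilities
  set p : ℕ → ℝ := fun m => pr (rE w) (lE w) (fun _ => full N) m A (bot N k) with hp
  have hp0 : ∀ m, 0 ≤ p m := fun m => pr_nonneg hadm _ m A _
  have hp1 : ∀ m, p m ≤ 1 := fun m => pr_le_one hadm _ m A _
  have hpm : ∀ m n, m ≤ n → p m ≤ p n := fun m n hmn =>
    hT N k (rE w) (lE w) m n (ind A) hk hadm hInc hmn
  -- main step
  have key : ∀ t, t ∈ S (1 - ε) → c * N / 2 ≤ t ∧ tmix w N k π ε ≤ (1 + δ) ^ 4 * t := by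
    intro t ht
    set lam : ℝ := 2 * N * t with hlam
    have hl0 : 0 ≤ lam := by have := ht.1; positivity
    have hlow : 3 * ε / 4 ≤ ∑' m : ℕ, poi lam m * p m := by
      have h1 := hL N k w π t ψ0 A hN1 hk hw hπ ht.1 rfl
      have h2 := ht.2 ψ0
      rw [cut_extC_total hS hN1 hk hw hπ A] at h1
      have h3 : ∑' m : ℕ, poi (2 * N * t) m * pr (rE w) (lE w) (fun _ => full N) m A (bot N k)
        = ∑' m : ℕ, poi lam m * p m := rfl
      linarith
    -- lower bound for lam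
    have hbig : c * (N : ℝ) ^ 2 ≤ lam := by
      by_contra hcon
      have hcon := not_le.mp hcon
      set q : ℝ := 2 * Real.sqrt (lam / ε) with hq
      have hq0 : 0 ≤ q := by positivity
      have hq2 : q ^ 2 = 4 * (lam / ε) := by
        rw [hq, mul_pow, Real.sq_sqrt (by positivity)]; norm_num
      set m1 : ℕ := ⌈lam + q⌉₊ + 1 with hm1
      have hm1a : lam + q + 1 ≤ m1 := by
        have := Nat.le_ceil (lam + q)
        rw [hm1]; push_cast; linarith
      have hm1b : (m1 : ℝ) < lam + q + 2 := by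
        have := Nat.ceil_lt_add_one (by positivity : (0 : ℝ) ≤ lam + q)
        rw [hm1]; push_cast; linarith
      have h1 := cut_avg hP hl0 (m1 := m1) (by linarith) p hp0 hp1 (fun m hm => hpm m m1 hm)
      have h2 : lam / ((m1 : ℝ) - lam) ^ 2 ≤ ε / 4 := by
        refine cut_div (by linarith) ?_
        have a1 : q ^ 2 ≤ ((m1 : ℝ) - lam) ^ 2 := by
          apply pow_le_pow_left₀ hq0; linarith
        rw [hq2] at a1
        have a2 : ε / 4 * (4 * (lam / ε)) = lam := by field_simp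
        have a3 := mul_le_mul_of_nonneg_left a1 (by positivity : (0 : ℝ) ≤ ε / 4)
        linarith
      have h3 : ε / 4 ≤ p m1 := by linarith
      have h4 := (hm m1 h3).1
      rw [le_div_iff₀ (by positivity)] at h4
      have h5 : q ≤ 2 * Real.sqrt (c / ε) * N := by
        have b1 : Real.sqrt (lam / ε) ≤ Real.sqrt (c / ε) * N := by
          have : Real.sqrt (c / ε) * N = Real.sqrt (c / ε * (N : ℝ) ^ 2) := by
            rw [Real.sqrt_mul (by positivity), Real.sqrt_sq hNr.le]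
          rw [this]
          apply Real.sqrt_le_sqrt
          rw [div_mul_eq_mul_div]
          exact div_le_div_of_nonneg_right hcon.le hε.le
        rw [hq]; linarith
      nlinarith
    have ht2 : c * N / 2 ≤ t := by
      have : c * (N : ℝ) ^ 2 ≤ 2 * N * t := hbig
      nlinarith
    refine ⟨ht2, ?_⟩
    -- second application
    have hlpos : 0 < lam := lt_of_lt_of_le (by positivity) hbig
    set m1 : ℕ := ⌈(1 + δ) * lam⌉₊ with hm1
    have hm1a : (1 + δ) * lam ≤ m1 := Nat.le_ceil _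
    have hm1b : (m1 : ℝ) < (1 + δ) * lam + 1 := Nat.ceil_lt_add_one (by positivity)
    have hδl : 0 < δ * lam := by positivity
    have h1 := cut_avg hP hl0 (m1 := m1) (by linarith) p hp0 hp1 (fun m hm => hpm m m1 hm)
    have h8 : 8 ≤ ε * δ ^ 2 * lam := by
      have := k2.trans hbig
      rw [div_le_iff₀ (by positivity)] at this
      linarith
    have h2 : lam / ((m1 : ℝ) - lam) ^ 2 ≤ ε / 4 := by
      refine cut_div (by linarith) ?_
      have a1 : (δ * lam) ^ 2 ≤ ((m1 : ℝ) - lam) ^ 2 := by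
        apply pow_le_pow_left₀ hδl.le; linarith
      have a2 : lam ≤ ε / 4 * (δ * lam) ^ 2 := by nlinarith
      have a3 := mul_le_mul_of_nonneg_left a1 (by positivity : (0 : ℝ) ≤ ε / 4)
      linarith
    have h3 : ε / 4 ≤ p m1 := by linarith
    have h4 := (hm m1 h3).2
    set m2 : ℕ := ⌈(1 + δ) * (m1 : ℝ)⌉₊ with hm2
    have hm2a : (1 + δ) * (m1 : ℝ) ≤ m2 := Nat.le_ceil _
    have hm2b : (m2 : ℝ) < (1 + δ) * (m1 : ℝ) + 1 := Nat.ceil_lt_add_one (by positivity)
    have hm1l : lam ≤ m1 := by linarith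
    have hm2l : lam ≤ m2 := by nlinarith
    have hm2p : (0 : ℝ) < m2 := lt_of_lt_of_le hlpos hm2l
    set t2 : ℝ := (1 + δ) * m2 / (2 * N) with ht2def
    have e2 : 2 * (N : ℝ) * t2 = (1 + δ) * m2 := by rw [ht2def]; field_simp
    have hmem : t2 ∈ S ε := by
      refine ⟨by positivity, fun ψ => ?_⟩
      have b1 := hU N k w π t2 ψ m2 (ε / 4) hN1 hk hw hπ (by positivity) h4
      rw [e2] at b1
      have b2 := cut_low hP (lam := (1 + δ) * m2) (m2 := m2) (by nlinarith)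
      have b3 : (1 + δ) * m2 / ((1 + δ) * m2 - m2) ^ 2 ≤ ε / 4 := by
        refine cut_div (by nlinarith) ?_
        have c1 : ((1 + δ) * (m2 : ℝ) - m2) ^ 2 = δ ^ 2 * m2 * m2 := by ring
        rw [c1]
        have c2 : 8 ≤ ε * δ ^ 2 * m2 := by
          have : ε * δ ^ 2 * lam ≤ ε * δ ^ 2 * m2 :=
            mul_le_mul_of_nonneg_left hm2l (by positivity)
          linarith
        have c3 : 8 * (m2 : ℝ) ≤ ε * δ ^ 2 * m2 * m2 := mul_le_mul_of_nonneg_right c2 hm2p.le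
        nlinarith
      linarith
    have hinf : tmix w N k π ε ≤ t2 := csInf_le (hbdd ε) hmem
    refine hinf.trans ?_
    rw [ht2def, div_le_iff₀ (by positivity)]
    have e3 : (1 + δ) ^ 4 * t * (2 * N) = (1 + δ) ^ 4 * lam := by rw [hlam]; ring
    rw [e3]
    have h5 : 3 ≤ δ * lam := by
      have := k3.trans hbig
      rw [div_le_iff₀ hδ] at this
      linarith
    have h6 : (m2 : ℝ) ≤ (1 + δ) ^ 3 * lam := by
      have c1 : (m2 : ℝ) ≤ (1 + δ) * ((1 + δ) * lam + 1) + 1 := by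
        have : (1 + δ) * (m1 : ℝ) ≤ (1 + δ) * ((1 + δ) * lam + 1) :=
          mul_le_mul_of_nonneg_left hm1b.le (by positivity)
        linarith
      have c2 : (1 + δ) ^ 3 * lam = (1 + δ) ^ 2 * lam + δ * lam + (2 * δ + δ ^ 2) * (δ * lam) := by
        ring
      have c3 : 0 ≤ (2 * δ + δ ^ 2) * (δ * lam) := by positivity
      rw [c2]
      nlinarith
    calc (1 + δ) * (m2 : ℝ) ≤ (1 + δ) * ((1 + δ) ^ 3 * lam) :=
          mul_le_mul_of_nonneg_left h6 (by positivity)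
      _ = (1 + δ) ^ 4 * lam := by ring
  have hT1 : c * N / 2 ≤ tmix w N k π (1 - ε) :=
    le_csInf (hne _ (by linarith)) (fun t ht => (key t ht).1)
  have hTpos : 0 < tmix w N k π (1 - ε) := lt_of_lt_of_le (by positivity) hT1
  have hT2 : tmix w N k π ε / (1 + δ) ^ 4 ≤ tmix w N k π (1 - ε) := by
    refine le_csInf (hne _ (by linarith)) (fun t ht => ?_)
    rw [div_le_iff₀ (by positivity)]
    have := (key t ht).2
    linarith
  rw [div_le_iff₀ (by positivity)] at hT2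
  have hr1 : 1 ≤ tmix w N k π ε / tmix w N k π (1 - ε) := by
    rw [le_div_iff₀ hTpos]; linarith
  have hr2 : tmix w N k π ε / tmix w N k π (1 - ε) ≤ (1 + δ) ^ 4 := by
    rw [div_le_iff₀ hTpos]; linarith
  rw [abs_of_nonneg (by linarith)]
  have h9 : (1 + δ) ^ 4 - 1 ≤ 15 * δ := by
    have d1 : δ ^ 2 ≤ δ := by nlinarith
    have d2 : δ ^ 3 ≤ δ := by nlinarith
    have d3 : δ ^ 4 ≤ δ := by nlinarith
    nlinarith
  linarith

end Pool.Agent.Helper98.EX

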