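import Pool.Agent.Helper98.EX.Stmts2

/-! EX, module LAGLOW: lower bound for the travel time of the last particles -/

namespace Pool.Agent.Helper98.EX

open Finset Filter

variable {N : ℕ}

/-! ### the `n` leftmost particles -/

/-- the `n` leftmost particles -/
noncomputable def laglow_left (n : ℕ) (ζ : Cfg N) : Cfg N :=
  fun i => decide (ζ i = true ∧ cnt ζ 0 i.val < n)

theorem laglow_occ (n : ℕ) (ζ : Cfg N) {x : ℕ} (hx : x < N) :
    occ (laglow_left n ζ) x = true ↔ occ ζ x = true ∧ cnt ζ 0 x < n := by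
  rw [occ_lt hx, occ_lt hx]
  simp [laglow_left]

theorem laglow_cnt_succ (ζ : Cfg N) (x : ℕ) :
    cnt ζ 0 (x + 1) = cnt ζ 0 x + (if occ ζ x = true then 1 else 0) := by
  unfold cnt
  rw [Finset.sum_Ico_succ_top (Nat.zero_le x)]

theorem laglow_ht (n : ℕ) (ζ : Cfg N) (hn : n ≤ ht ζ 0) {x : ℕ} (hx : x ≤ N) :
    ht (laglow_left n ζ) x = n - cnt ζ 0 x := by
  have h : ∀ d, d ≤ N → ht (laglow_left n ζ) (N - d) = n - cnt ζ 0 (N - d) := by
    intro d
    induction d with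
    | zero =>
      intro _
      have h1 := ht_cnt ζ (Nat.zero_le N) le_rfl
      rw [ht_ge (η := ζ) le_rfl] at h1
      rw [Nat.sub_zero, ht_ge le_rfl]
      omega
    | succ d ih =>
      intro hd
      have e : N - (d + 1) + 1 = N - d := by omega
      have h1 := ht_succ (laglow_left n ζ) (by omega : N - (d + 1) < N)
      have h2 := laglow_cnt_succ ζ (N - (d + 1))
      rw [e] at h1 h2
      rw [ih (by omega)] at h1
      by_cases ho : occ ζ (N - (d + 1)) = true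
      · rw [if_pos ho] at h2
        by_cases hc : cnt ζ 0 (N - (d + 1)) < n
        · rw [if_pos ((laglow_occ n ζ (by omega)).2 ⟨ho, hc⟩)] at h1
          omega
        · rw [if_neg (by rw [laglow_occ n ζ (by omega)]; tauto)] at h1
          omega
      · rw [if_neg ho] at h2
        rw [if_neg (by rw [laglow_occ n ζ (by omega)]; tauto)] at h1
        omega
  have := h (N - x) (by omega)
  have e : N - (N - x) = x := by omega
  rwa [e] at this

theorem laglow_hle (n k : ℕ) (ζ : Cfg N) (hk : ht ζ 0 = k) (hn : n ≤ k) :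
    hle (k - n) ζ (laglow_left n ζ) := by
  intro x
  rcases le_or_gt x N with hx | hx
  · rw [laglow_ht n ζ (by omega) hx]
    have := ht_cnt ζ (Nat.zero_le x) hx
    omega
  · rw [ht_ge hx.le]; omega

/-! ### the weights -/

theorem laglow_aa {r l : ℕ → ℝ} {p0 q0 : ℝ} (hq : 0 < q0) (hqp : q0 < p0)
    (h : NN N r l p0 q0) (y : ℕ) (hy : y + 1 < N) :
    0 ≤ aa r l y ∧ aa r l y ≤ 1 / (p0 - q0) := by
  have hp : 0 < p0 := hq.trans hqp
  have hd : 0 < p0 - q0 := by linarith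
  induction y with
  | zero =>
    obtain ⟨h1, h2, h3, h4⟩ := h 1 le_rfl hy
    have hr : 0 < r 1 := by linarith
    refine ⟨by simp only [aa]; positivity, ?_⟩
    simp only [aa]
    apply one_div_le_one_div_of_le hd
    linarith
  | succ y ih =>
    obtain ⟨i1, i2⟩ := ih (by omega)
    obtain ⟨h1, h2, h3, h4⟩ := h (y + 2) (by omega) (by omega)
    obtain ⟨g1, g2, g3, g4⟩ := h (y + 1) (by omega) (by omega)
    have hr : 0 < r (y + 2) := by linarith
    refine ⟨by simp only [aa]; positivity, ?_⟩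
    simp only [aa]
    rw [div_le_iff₀ hr]
    have a1 : l (y + 1) * aa r l y ≤ q0 * (1 / (p0 - q0)) :=
      mul_le_mul g4 i2 i1 (by linarith)
    have a2 : 1 / (p0 - q0) * p0 ≤ 1 / (p0 - q0) * r (y + 2) :=
      mul_le_mul_of_nonneg_left h1 (by positivity)
    have a3 : 1 + q0 * (1 / (p0 - q0)) = 1 / (p0 - q0) * p0 := by
      field_simp; ring
    linarith

/-- truncated weights -/
noncomputable def laglow_a (N : ℕ) (r l : ℕ → ℝ) (y : ℕ) : ℝ := if y + 1 < N then aa r l y else 0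

theorem laglow_rec {r l : ℕ → ℝ} {p0 q0 : ℝ} (hq : 0 < q0) (hqp : q0 < p0)
    (h : NN N r l p0 q0) (y : ℕ) (hy : y + 1 < N) :
    r (y + 1) * laglow_a N r l y =
      1 + (if y = 0 then 0 else l y * laglow_a N r l (y - 1)) := by
  have hp : 0 < p0 := hq.trans hqp
  unfold laglow_a
  rw [if_pos hy]
  cases y with
  | zero =>
    obtain ⟨h1, h2, h3, h4⟩ := h 1 le_rfl hy
    have hr : r 1 ≠ 0 := by
      have : 0 < r 1 := by linarith
      exact this.ne'
    simp only [aa, if_true]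
    field_simp
    ring
  | succ y =>
    obtain ⟨h1, h2, h3, h4⟩ := h (y + 2) (by omega) (by omega)
    have hr : r (y + 2) ≠ 0 := by
      have : 0 < r (y + 2) := by linarith
      exact this.ne'
    rw [if_neg (by omega)]
    have e : y + 1 - 1 = y := by omega
    rw [e, if_pos (by omega)]
    simp only [aa]
    field_simp

/-! ### numbers -/

theorem laglow_pow (e A : ℝ) (he : 0 < e) : ∀ᶠ N : ℕ in atTop, A ≤ (N : ℝ) ^ e :=
  ((tendsto_rpow_atTop he).comp tendsto_natCast_atTop_atTop).eventually_ge_atTop A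

theorem laglow_F2 (c3 : ℝ) (hc : 0 < c3) :
    ∀ᶠ N : ℕ in atTop, (N : ℝ) ^ (0.7 : ℝ) ≤ 4 * (c3 * N) := by
  filter_upwards [laglow_pow 0.3 (1 / (4 * c3)) (by norm_num), eventually_ge_atTop 1]
    with N h1 h2
  have hN : (0 : ℝ) < N := by exact_mod_cast h2
  have e : (N : ℝ) = (N : ℝ) ^ (0.7 : ℝ) * (N : ℝ) ^ (0.3 : ℝ) := by
    rw [← Real.rpow_add hN]; norm_num
  have h3 : 1 ≤ 4 * c3 * (N : ℝ) ^ (0.3 : ℝ) := by
    have := mul_le_mul_of_nonneg_left h1 (by positivity : (0 : ℝ) ≤ 4 * c3)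
    rwa [mul_one_div_cancel (by positivity)] at this
  have h4 : 0 ≤ (N : ℝ) ^ (0.7 : ℝ) := by positivity
  calc (N : ℝ) ^ (0.7 : ℝ) = (N : ℝ) ^ (0.7 : ℝ) * 1 := by ring
    _ ≤ (N : ℝ) ^ (0.7 : ℝ) * (4 * c3 * (N : ℝ) ^ (0.3 : ℝ)) := mul_le_mul_of_nonneg_left h3 h4
    _ = 4 * (c3 * N) := by
        conv_rhs => rw [e]
        ring

theorem laglow_F3 (C0 K : ℝ) (hC : 0 < C0) (hK : 0 < K) :
    ∀ᶠ N : ℕ in atTop, Real.log (2 * N) * (16 * (C0 * (K * N + 1) * Real.log N ^ 2)) ≤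
      (N : ℝ) ^ (1.2 : ℝ) := by
  filter_upwards [laglow_pow 0.05 (40 * 16 * C0 * (K + 1) * 400) (by norm_num),
    eventually_ge_atTop 1] with N h1 h2
  have hN1 : (1 : ℝ) ≤ N := by exact_mod_cast h2
  have hN : (0 : ℝ) < N := by linarith
  set t : ℝ := (N : ℝ) ^ (0.05 : ℝ) with ht
  have ht0 : 0 < t := by rw [ht]; positivity
  have hl : Real.log N ≤ 20 * t := by
    have := Real.log_le_rpow_div hN.le (by norm_num : (0 : ℝ) < 0.05)
    rw [ht]; linarith [this, show (N : ℝ) ^ (0.05 : ℝ) / 0.05 = 20 * (N : ℝ) ^ (0.05 : ℝ) by ring]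
  have hl0 : 0 ≤ Real.log N := Real.log_nonneg hN1
  have hl2 : Real.log (2 * N) ≤ 40 * t := by
    have h3 := Real.log_le_rpow_div (by positivity : (0 : ℝ) ≤ 2 * N)
      (by norm_num : (0 : ℝ) < 0.05)
    have h4 : (2 * (N : ℝ)) ^ (0.05 : ℝ) = (2 : ℝ) ^ (0.05 : ℝ) * t := by
      rw [ht, Real.mul_rpow (by norm_num) hN.le]
    have h5 : (2 : ℝ) ^ (0.05 : ℝ) ≤ 2 := by
      have := Real.rpow_le_rpow_of_exponent_le (by norm_num : (1 : ℝ) ≤ 2)
        (by norm_num : (0.05 : ℝ) ≤ 1)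
      rwa [Real.rpow_one] at this
    rw [h4] at h3
    have h6 : (2 : ℝ) ^ (0.05 : ℝ) * t ≤ 2 * t := mul_le_mul_of_nonneg_right h5 ht0.le
    have e : (2 : ℝ) ^ (0.05 : ℝ) * t / 0.05 = 20 * ((2 : ℝ) ^ (0.05 : ℝ) * t) := by ring
    rw [e] at h3
    linarith
  have hl20 : 0 ≤ Real.log (2 * N) := Real.log_nonneg (by linarith)
  have hsq : Real.log N ^ 2 ≤ 400 * t ^ 2 := by nlinarith
  have hKN : K * N + 1 ≤ (K + 1) * N := by nlinarith
  have e12 : (N : ℝ) ^ (1.2 : ℝ) = N * t ^ 4 := by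
    rw [ht, ← Real.rpow_natCast, ← Real.rpow_mul hN.le]
    have : (N : ℝ) * (N : ℝ) ^ (0.05 * ((4 : ℕ) : ℝ)) =
        (N : ℝ) ^ (1 : ℝ) * (N : ℝ) ^ (0.05 * ((4 : ℕ) : ℝ)) := by rw [Real.rpow_one]
    rw [this, ← Real.rpow_add hN]
    norm_num
  rw [e12]
  have s1 : C0 * (K * N + 1) * Real.log N ^ 2 ≤ C0 * ((K + 1) * N) * (400 * t ^ 2) := by
    apply mul_le_mul _ hsq (by positivity) (by positivity)
    exact mul_le_mul_of_nonneg_left hKN hC.le
  have s2 : Real.log (2 * N) * (16 * (C0 * (K * N + 1) * Real.log N ^ 2)) ≤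
      40 * t * (16 * (C0 * ((K + 1) * N) * (400 * t ^ 2))) := by
    apply mul_le_mul hl2 _ (by positivity) (by positivity)
    linarith
  refine s2.trans ?_
  have s3 : 40 * t * (16 * (C0 * ((K + 1) * N) * (400 * t ^ 2))) =
      (40 * 16 * C0 * (K + 1) * 400) * (N * t ^ 3) := by ring
  rw [s3]
  have s4 : (40 * 16 * C0 * (K + 1) * 400) * (N * t ^ 3) ≤ t * (N * t ^ 3) :=
    mul_le_mul_of_nonneg_right h1 (by positivity)
  refine s4.trans (le_of_eq ?_)
  ring

theorem laglow_F4 (c : ℝ) (hc : 0 < c) :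
    ∀ᶠ N : ℕ in atTop, (N : ℝ) ^ 2 * Real.exp (-(c * N)) ≤ 1 := by
  have h1 := Real.tendsto_pow_mul_exp_neg_atTop_nhds_zero 2
  have h2 : Tendsto (fun N : ℕ => c * (N : ℝ)) atTop atTop :=
    tendsto_natCast_atTop_atTop.const_mul_atTop hc
  have h3 := (h1.comp h2).eventually (eventually_le_nhds (show (0 : ℝ) < c ^ 2 by positivity))
  filter_upwards [h3] with N h4
  simp only [Function.comp] at h4
  have h5 : c ^ 2 * ((N : ℝ) ^ 2 * Real.exp (-(c * N))) ≤ c ^ 2 * 1 := by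
    calc c ^ 2 * ((N : ℝ) ^ 2 * Real.exp (-(c * N))) = (c * N) ^ 2 * Real.exp (-(c * N)) := by
          ring
      _ ≤ c ^ 2 := h4
      _ = c ^ 2 * 1 := by ring
  exact le_of_mul_le_mul_left h5 (by positivity)

/-! ### the last `n` particles -/

/-- expected height far to the right, started with `n` particles missing on the right of `z` -/
theorem laglow_step {r l : ℕ → ℝ} (hLE : ST_LEAD) (hA : Adm N r l) (a : ℕ → ℝ) (lam C : ℝ)
    (z z' D n k : ℕ) (ζ : Cfg N) (hlr : ∀ b, 1 ≤ b → b < N → l b ≤ r b) (ha0 : ∀ y, 0 ≤ a y)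
    (ha : ∀ y, y + 1 < N → a y ≤ C ∧
      r (y + 1) * a y = 1 + (if y = 0 then 0 else l y * a (y - 1)))
    (hlam : 0 ≤ lam) (hlamC : lam * C ≤ 1) (hC : 0 ≤ C) (hzz : z ≤ z') (hzN : z' < N)
    (hk : ht ζ 0 = k) (hn : n ≤ k) (hz : ht ζ z ≤ k - n) :
    ev r l (fun _ => full N) D (fun ξ => (ht ξ z' : ℝ)) ζ ≤ (k - n : ℕ) +
      n * (n * Real.exp ((lam + 2 * C ^ 2 * lam ^ 2) * D / (2 * N) -
        lam * ∑ y ∈ Finset.Ico z z', a y)) := by
  have h1 : ev r l (fun _ => full N) D (fun ξ => (ht ξ z' : ℝ)) ζ ≤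
      ev r l (fun _ => full N) D (fun ξ : Cfg N => (ht ξ z' : ℝ) + ((k - n : ℕ) : ℝ))
        (laglow_left n ζ) := by
    apply ev_couple hA (fun _ => full N) (fun _ => full N) D (fun _ η ξ => hle (k - n) η ξ)
    · intro i η ξ _ h; exact h
    · intro i η ξ x _ _ _ h; exact hle_RmS h _ _
    · intro i η ξ x _ _ _ h; exact hle_LmS h _ _
    · intro η ξ h
      have := h z'
      exact_mod_cast this
    · exact laglow_hle n k ζ hk hn
  refine h1.trans ?_
  rw [ev_add_fun (fun _ => full N) D (fun ξ : Cfg N => (ht ξ z' : ℝ))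
    (fun _ => ((k - n : ℕ) : ℝ)), ev_const, add_comm]
  apply add_le_add le_rfl
  have h0 : ht (laglow_left n ζ) 0 = n := by
    rw [laglow_ht n ζ (by omega) (Nat.zero_le N)]
    simp [cnt]
  have hz0 : ht (laglow_left n ζ) z = 0 := by
    rw [laglow_ht n ζ (by omega) (by omega)]
    have := ht_cnt ζ (Nat.zero_le z) (by omega : z ≤ N)
    omega
  have h2 : ev r l (fun _ => full N) D (fun ξ => (ht ξ z' : ℝ)) (laglow_left n ζ) ≤
      ev r l (fun _ => full N) D (fun ξ => (n : ℝ) * ind {ξ : Cfg N | 1 ≤ ht ξ z'} ξ)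
        (laglow_left n ζ) := by
    apply ev_mono_sector hA (k := n) _ _ _ h0
    intro ξ hξ
    by_cases h3 : 1 ≤ ht ξ z'
    · rw [ind_of_mem (show ξ ∈ {ξ : Cfg N | 1 ≤ ht ξ z'} from h3), mul_one]
      have := ht_anti ξ (Nat.zero_le z')
      exact_mod_cast (by omega : ht ξ z' ≤ n)
    · rw [ind_of_not_mem (show ξ ∉ {ξ : Cfg N | 1 ≤ ht ξ z'} from h3), mul_zero]
      have : ht ξ z' = 0 := by omega
      rw [this]; simp
  refine h2.trans ?_
  rw [ev_smul]
  apply mul_le_mul_of_nonneg_left _ (Nat.cast_nonneg n)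
  exact hLE N r l a lam C z z' D n (laglow_left n ζ) hA hlr ha0 ha hlam hlamC hC hzz hzN h0 hz0

theorem st_LAGLOW (hCO : ST_CONC) (hLE : ST_LEAD) : ST_LAGLOW := by
  intro p0 q0 K κ c3 hq hqp hp1 hK hκ hc3
  obtain ⟨C0, hC0, hconc⟩ := hCO
  have hd : 0 < p0 - q0 := by linarith
  set C : ℝ := 1 / (p0 - q0) with hCdef
  have hC : 0 < C := by rw [hCdef]; positivity
  set lam : ℝ := min (κ / (4 * C ^ 2 * K)) (1 / C) with hlamdef
  have hlam : 0 < lam := by rw [hlamdef]; exact lt_min (by positivity) (by positivity)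
  have hlam1 : lam * C ≤ 1 := by
    have : lam ≤ 1 / C := min_le_right _ _
    calc lam * C ≤ 1 / C * C := mul_le_mul_of_nonneg_right this hC.le
      _ = 1 := by field_simp
  have hlam2 : 2 * C ^ 2 * lam * K ≤ κ / 2 := by
    have : lam ≤ κ / (4 * C ^ 2 * K) := min_le_left _ _
    calc 2 * C ^ 2 * lam * K = (2 * C ^ 2 * K) * lam := by ring
      _ ≤ (2 * C ^ 2 * K) * (κ / (4 * C ^ 2 * K)) := mul_le_mul_of_nonneg_left this (by positivity)
      _ = κ / 2 := by field_simp; ring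
  have hev := (((laglow_F2 c3 hc3).and (laglow_F3 C0 K hC0 hK)).and
    ((laglow_F4 (lam * κ / 2) (by positivity)).and (laglow_pow 0.6 17 (by norm_num)))).and
    (eventually_ge_atTop 3)
  obtain ⟨N0, hN0⟩ := eventually_atTop.1 hev
  refine ⟨N0, ?_⟩
  intro N k n z z' s m1 r l hN hNN hkN hzz hzN hn1 hnk hn2 hs1 hsm hm1 hes hem
  obtain ⟨⟨⟨F2, F3⟩, ⟨F4, F5⟩⟩, F1⟩ := hN0 N hN
  have hN3 : (3 : ℝ) ≤ N := by exact_mod_cast F1
  have hN0' : (0 : ℝ) < N := by linarith
  by_contra hcon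
  push Not at hcon
  -- admissibility
  have hA : Adm N r l := by
    intro x h1 h2
    obtain ⟨a1, a2, a3, a4⟩ := hNN x h1 h2
    exact ⟨by linarith, a2, a3, by linarith⟩
  have hlr : ∀ b, 1 ≤ b → b < N → l b ≤ r b := by
    intro b h1 h2
    obtain ⟨a1, a2, a3, a4⟩ := hNN b h1 h2
    linarith
  have ha0 : ∀ y, 0 ≤ laglow_a N r l y := by
    intro y
    unfold laglow_a
    split_ifs with h
    · exact (laglow_aa hq hqp hNN y h).1
    · exact le_rfl
  have ha : ∀ y, y + 1 < N → laglow_a N r l y ≤ C ∧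
      r (y + 1) * laglow_a N r l y =
        1 + (if y = 0 then 0 else l y * laglow_a N r l (y - 1)) := by
    intro y hy
    refine ⟨?_, laglow_rec hq hqp hNN y hy⟩
    unfold laglow_a
    rw [if_pos hy]
    exact (laglow_aa hq hqp hNN y hy).2
  have hsum : ∑ y ∈ Finset.Ico z z', laglow_a N r l y = ∑ y ∈ Finset.Ico z z', aa r l y := by
    apply Finset.sum_congr rfl
    intro y hy
    rw [Finset.mem_Ico] at hy
    unfold laglow_a
    rw [if_pos (by omega)]
  set Sg : ℝ := ∑ y ∈ Finset.Ico z z', aa r l y with hSg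
  -- the number of steps
  obtain ⟨D, rfl⟩ : ∃ D, m1 = s + D := ⟨m1 - s, by omega⟩
  set n2 : ℕ := n / 4 with hn2def
  have hn2a : (n : ℝ) / 4 - 1 ≤ n2 := by
    have : n < 4 * n2 + 4 := by omega
    have : (n : ℝ) < 4 * n2 + 4 := by exact_mod_cast this
    linarith
  have hn2b : (n2 : ℝ) ≤ n / 4 := by
    have : 4 * n2 ≤ n := by omega
    have : (4 : ℝ) * n2 ≤ n := by exact_mod_cast this
    linarith
  have hn2k : n2 ≤ k := by omega
  have hnN : (n : ℝ) ≤ N := by exact_mod_cast (by omega : n ≤ N)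
  have hn17 : (17 : ℝ) ≤ n := F5.trans hn1
  -- the exponential bound
  have hDle : (D : ℝ) / (2 * N) < Sg - κ * N := by
    rw [div_lt_iff₀ (by positivity)]
    push_cast at hcon
    nlinarith
  have hDK : (D : ℝ) / (2 * N) ≤ K * N := by
    refine le_trans ?_ hm1
    apply div_le_div_of_nonneg_right _ (by positivity)
    push_cast
    linarith [(Nat.cast_nonneg s : (0 : ℝ) ≤ s)]
  have hexpo : (lam + 2 * C ^ 2 * lam ^ 2) * D / (2 * N) - lam * Sg ≤ -(lam * κ / 2 * N) := by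
    have e1 : (lam + 2 * C ^ 2 * lam ^ 2) * D / (2 * N) =
        lam * (D / (2 * N)) + lam * (2 * C ^ 2 * lam) * (D / (2 * N)) := by ring
    rw [e1]
    have b1 : lam * (D / (2 * N)) ≤ lam * (Sg - κ * N) :=
      mul_le_mul_of_nonneg_left hDle.le hlam.le
    have b2 : lam * (2 * C ^ 2 * lam) * (D / (2 * N)) ≤ lam * (2 * C ^ 2 * lam) * (K * N) :=
      mul_le_mul_of_nonneg_left hDK (by positivity)
    have b3 : lam * (2 * C ^ 2 * lam) * (K * N) ≤ lam * (κ / 2) * N := by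
      have : lam * N * (2 * C ^ 2 * lam * K) ≤ lam * N * (κ / 2) :=
        mul_le_mul_of_nonneg_left hlam2 (by positivity)
      calc lam * (2 * C ^ 2 * lam) * (K * N) = lam * N * (2 * C ^ 2 * lam * K) := by ring
        _ ≤ lam * N * (κ / 2) := this
        _ = lam * (κ / 2) * N := by ring
    nlinarith
  have hsmall : (n2 : ℝ) * (n2 * Real.exp ((lam + 2 * C ^ 2 * lam ^ 2) * D / (2 * N) -
      lam * ∑ y ∈ Finset.Ico z z', laglow_a N r l y)) ≤ 1 := by
    rw [hsum]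
    have b1 : Real.exp ((lam + 2 * C ^ 2 * lam ^ 2) * D / (2 * N) - lam * Sg) ≤
        Real.exp (-(lam * κ / 2 * N)) := Real.exp_le_exp.2 hexpo
    have b2 : (n2 : ℝ) ≤ N := by linarith
    have b3 : (n2 : ℝ) * n2 ≤ (N : ℝ) ^ 2 := by
      have := mul_le_mul b2 b2 (Nat.cast_nonneg n2) (by linarith)
      calc (n2 : ℝ) * n2 ≤ N * N := this
        _ = (N : ℝ) ^ 2 := by ring
    calc (n2 : ℝ) * (n2 * Real.exp ((lam + 2 * C ^ 2 * lam ^ 2) * D / (2 * N) - lam * Sg)) =
          n2 * n2 * Real.exp ((lam + 2 * C ^ 2 * lam ^ 2) * D / (2 * N) - lam * Sg) := by ring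
      _ ≤ (N : ℝ) ^ 2 * Real.exp (-(lam * κ / 2 * N)) :=
          mul_le_mul b3 b1 (Real.exp_pos _).le (by positivity)
      _ ≤ 1 := F4
  -- the bad event at time s
  have hbad : (k : ℝ) * pr r l (fun _ => full N) s {ζ | k - n2 < ht ζ z} (bot N k) ≤ 1 := by
    have hpos : 0 ≤ (s : ℝ) / (2 * N) := by positivity
    have hlog1 : 1 ≤ Real.log N := by
      rw [Real.le_log_iff_exp_le hN0']
      have := Real.exp_one_lt_d9
      linarith
    have c1 := hconc N r l (fun _ => full N) s z ((n : ℝ) / 4) (bot N k) F1 hA (by positivity)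
      (by
        have a1 : (n : ℝ) / 4 ≤ c3 * N := by linarith
        have a2 : (s : ℝ) / (2 * N) + 1 ≤ ((s : ℝ) / (2 * N) + 1) * Real.log N := by
          nlinarith
        linarith)
    have c2 : pr r l (fun _ => full N) s {ζ | k - n2 < ht ζ z} (bot N k) ≤
        pr r l (fun _ => full N) s {ξ | (n : ℝ) / 4 ≤ |(ht ξ z : ℝ) -
          ev r l (fun _ => full N) s (fun ζ => (ht ζ z : ℝ)) (bot N k)|} (bot N k) := by
      apply pr_mono hA
      intro ξ hξ
      simp only [Set.mem_ofPred_eq] at hξ ⊢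
      have d1 : k < ht ξ z + n2 := by omega
      have d2 : (k : ℝ) < ht ξ z + n2 := by exact_mod_cast d1
      refine le_trans ?_ (le_abs_self _)
      linarith
    have c3' : (k : ℝ) ≤ N := by exact_mod_cast hkN
    have hsK : (s : ℝ) / (2 * N) ≤ K * N := by
      refine le_trans ?_ hm1
      apply div_le_div_of_nonneg_right _ (by positivity)
      push_cast
      linarith [(Nat.cast_nonneg D : (0 : ℝ) ≤ D)]
    have hden : 0 < C0 * ((s : ℝ) / (2 * N) + 1) * Real.log N ^ 2 := by positivity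
    have hexp : Real.log (2 * N) ≤
        ((n : ℝ) / 4) ^ 2 / (C0 * ((s : ℝ) / (2 * N) + 1) * Real.log N ^ 2) := by
      rw [le_div_iff₀ hden]
      have hl20 : 0 ≤ Real.log (2 * N) := Real.log_nonneg (by linarith)
      have g1 : C0 * ((s : ℝ) / (2 * N) + 1) * Real.log N ^ 2 ≤
          C0 * (K * N + 1) * Real.log N ^ 2 := by
        apply mul_le_mul_of_nonneg_right _ (by positivity)
        apply mul_le_mul_of_nonneg_left _ hC0.le
        linarith
      have g2 : Real.log (2 * N) * (C0 * ((s : ℝ) / (2 * N) + 1) * Real.log N ^ 2) ≤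
          Real.log (2 * N) * (C0 * (K * N + 1) * Real.log N ^ 2) :=
        mul_le_mul_of_nonneg_left g1 hl20
      have g3 : (N : ℝ) ^ (1.2 : ℝ) ≤ (n : ℝ) ^ 2 := by
        have : (N : ℝ) ^ (1.2 : ℝ) = ((N : ℝ) ^ (0.6 : ℝ)) ^ 2 := by
          rw [← Real.rpow_natCast, ← Real.rpow_mul hN0'.le]; norm_num
        rw [this]
        have h0 : 0 ≤ (N : ℝ) ^ (0.6 : ℝ) := by positivity
        exact pow_le_pow_left₀ h0 hn1 2
      have g4 : Real.log (2 * N) * (16 * (C0 * (K * N + 1) * Real.log N ^ 2)) =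
          16 * (Real.log (2 * N) * (C0 * (K * N + 1) * Real.log N ^ 2)) := by ring
      rw [g4] at F3
      have g5 : ((n : ℝ) / 4) ^ 2 = (n : ℝ) ^ 2 / 16 := by ring
      rw [g5]
      linarith
    have c4 : pr r l (fun _ => full N) s {ζ | k - n2 < ht ζ z} (bot N k) ≤ 1 / N := by
      refine (c2.trans c1).trans ?_
      have d1 : Real.exp (-(((n : ℝ) / 4) ^ 2 /
          (C0 * ((s : ℝ) / (2 * N) + 1) * Real.log N ^ 2))) ≤ Real.exp (-Real.log (2 * N)) :=
        Real.exp_le_exp.2 (neg_le_neg hexp)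
      have d2 : Real.exp (-Real.log (2 * N)) = (2 * (N : ℝ))⁻¹ := by
        rw [Real.exp_neg, Real.exp_log (by positivity)]
      rw [d2] at d1
      calc 2 * Real.exp (-(((n : ℝ) / 4) ^ 2 /
          (C0 * ((s : ℝ) / (2 * N) + 1) * Real.log N ^ 2))) ≤ 2 * (2 * (N : ℝ))⁻¹ := by linarith
        _ = 1 / N := by field_simp
    calc (k : ℝ) * pr r l (fun _ => full N) s {ζ | k - n2 < ht ζ z} (bot N k) ≤
          N * (1 / N) := mul_le_mul c3' c4 (pr_nonneg hA _ _ _ _) hN0'.le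
      _ = 1 := by field_simp
  -- the expectation at time m1
  have hfin : ev r l (fun _ => full N) (s + D) (fun ξ => (ht ξ z' : ℝ)) (bot N k) ≤
      ((k - n2 : ℕ) : ℝ) + 1 + k * pr r l (fun _ => full N) s {ζ | k - n2 < ht ζ z} (bot N k) := by
    rw [ev_add]
    have h1 : ev r l (fun _ => full N) s
        (ev r l (fun i => (fun _ => full N) (i + s)) D (fun ξ => (ht ξ z' : ℝ))) (bot N k) ≤
        ev r l (fun _ => full N) s (fun ζ => (((k - n2 : ℕ) : ℝ) + 1) +
          k * ind {ζ : Cfg N | k - n2 < ht ζ z} ζ) (bot N k) := by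
      apply ev_mono_sector hA (k := k) _ _ _ (ht_bot_zero hkN)
      intro ζ hζ
      by_cases h2 : k - n2 < ht ζ z
      · rw [ind_of_mem (show ζ ∈ {ζ : Cfg N | k - n2 < ht ζ z} from h2), mul_one]
        have h3 : ev r l (fun i => (fun _ => full N) (i + s)) D (fun ξ => (ht ξ z' : ℝ)) ζ ≤
            ev r l (fun i => (fun _ => full N) (i + s)) D (fun _ => (k : ℝ)) ζ := by
          apply ev_mono_sector hA (k := k) _ _ _ hζ
          intro ξ hξ
          have := ht_anti ξ (Nat.zero_le z')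
          exact_mod_cast (by omega : ht ξ z' ≤ k)
        rw [ev_const] at h3
        have : (0 : ℝ) ≤ ((k - n2 : ℕ) : ℝ) := Nat.cast_nonneg _
        linarith
      · rw [ind_of_not_mem (show ζ ∉ {ζ : Cfg N | k - n2 < ht ζ z} from h2), mul_zero, add_zero]
        have h3 := laglow_step hLE hA (laglow_a N r l) lam C z z' D n2 k ζ hlr ha0 ha hlam.le
          hlam1 hC.le hzz hzN hζ hn2k (by omega)
        linarith
    refine h1.trans (le_of_eq ?_)
    rw [ev_add_fun (fun _ => full N) s (fun _ => ((k - n2 : ℕ) : ℝ) + 1)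
      (fun ζ => (k : ℝ) * ind {ζ : Cfg N | k - n2 < ht ζ z} ζ), ev_const, ev_smul]
    rfl
  have hk2 : ((k - n2 : ℕ) : ℝ) = k - n2 := by
    rw [Nat.cast_sub hn2k]
  rw [hk2] at hfin
  linarith

end Pool.Agent.Helper98.EX
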