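import Pool.Agent.Helper98.EX.Stmts3

/-! EX, module STC: stationary laws in discrete and continuous time -/

namespace Pool.Agent.Helper98.EX

open Finset

variable {N k : ℕ}

theorem stc_adm {w : ℕ → ℝ} (hw : ∀ x, 0 < w x ∧ w x ≤ 1) (N : ℕ) : Adm N (rE w) (lE w) := by
  intro x _ _
  refine ⟨(hw _).1, (hw _).2, ?_, ?_⟩
  · have := (hw x).2
    simp only [lE]; linarith
  · have := (hw x).1
    simp only [lE]; linarith

theorem stc_ht (η : Cfg N) : ht η 0 = (Finset.univ.filter (fun i => η i = true)).card := by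
  unfold ht
  rw [← Finset.range_eq_Ico, Finset.sum_range, Finset.card_filter]
  refine Finset.sum_congr rfl fun i _ => ?_
  rw [occ_fin]

/-- exchange of neighbours -/
theorem stc_exch (η : Conf N k) (x y : Fin N) (h : y.val = x.val + 1) :
    (exch η x y).1 = swp y.val η.1 := by
  funext i
  simp only [exch, swp]
  by_cases h1 : i = y
  · subst h1
    rw [Equiv.swap_apply_right, if_pos rfl]
    have : i.val - 1 = x.val := by omega
    rw [this, occ_fin]
  · have h1' : i.val ≠ y.val := fun hh => h1 (Fin.ext hh)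
    rw [if_neg h1']
    by_cases h2 : i = x
    · subst h2
      rw [Equiv.swap_apply_left, if_pos h.symm, occ_fin]
    · have h2' : i.val + 1 ≠ y.val := fun hh => h2 (Fin.ext (by omega))
      rw [if_neg h2', Equiv.swap_apply_of_ne_of_ne h2 h1]

theorem stc_exch_comm (η : Conf N k) (x y : Fin N) : exch η x y = exch η y x := by
  apply Subtype.ext
  funext i
  simp only [exch]
  rw [Equiv.swap_comm]

/-- the right-jump terms -/
theorem stc_right (w : ℕ → ℝ) (f : Cfg N → ℝ) (η : Conf N k) (x y : Fin N)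
    (h : y.val = x.val + 1) :
    (if η.1 x = true ∧ η.1 y = false then w x.val * (f (exch η x y).1 - f η.1) else 0) =
      rE w y.val * (f (RmS (full N) y.val η.1) - f η.1) := by
  have hm : y.val ∈ full N := by
    simp only [full, Finset.mem_Ico]; exact ⟨by omega, y.2⟩
  have hr : rE w y.val = w x.val := by
    simp only [rE]; congr 1; omega
  have ho1 : occ η.1 (y.val - 1) = η.1 x := by
    have : y.val - 1 = x.val := by omega
    rw [this, occ_fin]
  have ho2 : occ η.1 y.val = η.1 y := occ_fin _ _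
  unfold RmS Rm
  rw [if_pos hm, hr, ho1, ho2]
  by_cases hc : η.1 x = true ∧ η.1 y = false
  · rw [if_pos hc, if_pos ⟨by omega, y.2, hc.1, hc.2⟩, stc_exch η x y h]
  · rw [if_neg hc, if_neg (fun hh => hc ⟨hh.2.2.1, hh.2.2.2⟩), sub_self, mul_zero]

/-- the left-jump terms -/
theorem stc_left (w : ℕ → ℝ) (f : Cfg N → ℝ) (η : Conf N k) (x y : Fin N)
    (h : x.val = y.val + 1) :
    (if η.1 x = true ∧ η.1 y = false then (1 - w x.val) * (f (exch η x y).1 - f η.1) else 0) =
      lE w x.val * (f (LmS (full N) x.val η.1) - f η.1) := by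
  have hm : x.val ∈ full N := by
    simp only [full, Finset.mem_Ico]; exact ⟨by omega, x.2⟩
  have hr : lE w x.val = 1 - w x.val := rfl
  have ho1 : occ η.1 (x.val - 1) = η.1 y := by
    have : x.val - 1 = y.val := by omega
    rw [this, occ_fin]
  have ho2 : occ η.1 x.val = η.1 x := occ_fin _ _
  unfold LmS Lm
  rw [if_pos hm, hr, ho1, ho2]
  by_cases hc : η.1 x = true ∧ η.1 y = false
  · rw [if_pos hc, if_pos ⟨by omega, x.2, hc.2, hc.1⟩, stc_exch_comm, stc_exch η y x h]
  · rw [if_neg hc, if_neg (fun hh => hc ⟨hh.2.2.2, hh.2.2.1⟩), sub_self, mul_zero]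

theorem stc_fin_sum (G : ℕ → ℝ) :
    ∑ y : Fin N, (if 1 ≤ y.val then G y.val else 0) = ∑ b ∈ full N, G b := by
  have h := Finset.sum_range (n := N) (fun b => if 1 ≤ b then G b else 0)
  rw [← h, ← Finset.sum_filter]
  refine Finset.sum_congr ?_ fun _ _ => rfl
  ext b
  simp only [Finset.mem_filter, Finset.mem_range, full, Finset.mem_Ico]
  omega

theorem stc_pred_sum (G : ℕ → ℝ) (y : Fin N) :
    ∑ x : Fin N, (if y.val = x.val + 1 then G y.val else 0) = if 1 ≤ y.val then G y.val else 0 := by
  by_cases hy : 1 ≤ y.val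
  · rw [if_pos hy, Finset.sum_eq_single (⟨y.val - 1, by have := y.2; omega⟩ : Fin N)]
    · rw [if_pos (by simp only; omega)]
    · intro b _ hb
      rw [if_neg]
      intro hh
      exact hb (Fin.ext (by simp only; omega))
    · intro hh
      exact absurd (Finset.mem_univ _) hh
  · rw [if_neg hy]
    refine Finset.sum_eq_zero fun x _ => ?_
    rw [if_neg (by omega)]

/-- the generator in terms of marks -/
theorem stc_gen (w : ℕ → ℝ) (f : Cfg N → ℝ) (η : Conf N k) :
    genC w (fun ζ : Conf N k => f ζ.1) η =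
      ∑ x ∈ full N, (rE w x * (f (RmS (full N) x η.1) - f η.1) +
        lE w x * (f (LmS (full N) x η.1) - f η.1)) := by
  have h1 : genC w (fun ζ : Conf N k => f ζ.1) η =
      ∑ x : Fin N, ∑ y : Fin N,
        ((if y.val = x.val + 1 then rE w y.val * (f (RmS (full N) y.val η.1) - f η.1) else 0) +
        (if x.val = y.val + 1 then lE w x.val * (f (LmS (full N) x.val η.1) - f η.1) else 0)) := by
    unfold genC
    refine Finset.sum_congr rfl fun x _ => Finset.sum_congr rfl fun y _ => ?_
    unfold jr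
    by_cases ha : y.val = x.val + 1
    · rw [if_pos ha, if_pos ha, if_neg (by omega : ¬ x.val = y.val + 1), add_zero,
        ← stc_right w f η x y ha]
    · by_cases hb : x.val = y.val + 1
      · rw [if_neg ha, if_neg ha, if_pos hb, if_pos hb, zero_add, ← stc_left w f η x y hb]
      · rw [if_neg ha, if_neg ha, if_neg hb, if_neg hb]
        split_ifs <;> ring
  rw [h1, Finset.sum_add_distrib]
  have h2 : ∑ x : Fin N, ∑ y : Fin N,
      ((if y.val = x.val + 1 then rE w y.val * (f (RmS (full N) y.val η.1) - f η.1) else 0) +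
        (if x.val = y.val + 1 then lE w x.val * (f (LmS (full N) x.val η.1) - f η.1) else 0)) =
      ∑ y : Fin N, ∑ x : Fin N,
        (if y.val = x.val + 1 then rE w y.val * (f (RmS (full N) y.val η.1) - f η.1) else 0) +
      ∑ x : Fin N, ∑ y : Fin N,
        (if x.val = y.val + 1 then lE w x.val * (f (LmS (full N) x.val η.1) - f η.1) else 0) := by
    simp only [Finset.sum_add_distrib]
    congr 1
    exact Finset.sum_comm
  rw [h2]
  congr 1
  · rw [← stc_fin_sum]
    refine Finset.sum_congr rfl fun y _ => ?_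
    exact stc_pred_sum (fun b => rE w b * (f (RmS (full N) b η.1) - f η.1)) y
  · rw [← stc_fin_sum]
    refine Finset.sum_congr rfl fun x _ => ?_
    exact stc_pred_sum (fun b => lE w b * (f (LmS (full N) b η.1) - f η.1)) x

/-- linearity of the generator -/
theorem stc_lin (w : ℕ → ℝ) (g : Conf N k → ℝ) (η : Conf N k) :
    genC w g η = ∑ ξ, g ξ * genM w N k η ξ := by
  have hg : ∀ ζ : Conf N k, g ζ = ∑ ξ, g ξ * (if ζ = ξ then 1 else 0) := by
    intro ζ
    rw [Finset.sum_eq_single ζ]
    · rw [if_pos rfl, mul_one]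
    · intro b _ hb
      rw [if_neg (Ne.symm hb), mul_zero]
    · intro hh
      exact absurd (Finset.mem_univ _) hh
  have hs : ∀ x y : Fin N,
      (if η.1 x = true ∧ η.1 y = false then jr w x y * (g (exch η x y) - g η) else 0) =
      ∑ ξ, g ξ * (if η.1 x = true ∧ η.1 y = false then
        jr w x y * ((if exch η x y = ξ then 1 else 0) - (if η = ξ then 1 else 0)) else 0) := by
    intro x y
    by_cases hc : η.1 x = true ∧ η.1 y = false
    · simp only [if_pos hc]
      rw [hg (exch η x y), hg η, ← Finset.sum_sub_distrib, Finset.mul_sum]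
      refine Finset.sum_congr rfl fun ξ _ => ?_
      ring
    · simp only [if_neg hc, mul_zero, Finset.sum_const_zero]
  unfold genM genC
  simp only [hs, Finset.mul_sum]
  rw [show (∑ x : Fin N, ∑ y : Fin N, ∑ ξ : Conf N k, g ξ *
      (if η.1 x = true ∧ η.1 y = false then
        jr w x y * ((if exch η x y = ξ then 1 else 0) - (if η = ξ then 1 else 0)) else 0)) =
      ∑ x : Fin N, ∑ ξ : Conf N k, ∑ y : Fin N, g ξ *
      (if η.1 x = true ∧ η.1 y = false then
        jr w x y * ((if exch η x y = ξ then 1 else 0) - (if η = ξ then 1 else 0)) else 0) from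
    Finset.sum_congr rfl fun x _ => Finset.sum_comm]
  rw [Finset.sum_comm]

/-- sums against the extension -/
theorem stc_sum (π : Conf N k → ℝ) (F : Cfg N → ℝ) :
    ∑ η, extC π η * F η = ∑ η : Conf N k, π η * F η.1 := by
  classical
  have h1 : ∑ η, extC π η * F η =
      ∑ η ∈ Finset.univ.filter (fun η : Cfg N =>
        (Finset.univ.filter (fun i => η i = true)).card = k), extC π η * F η := by
    rw [Finset.sum_filter]
    refine Finset.sum_congr rfl fun η _ => ?_
    by_cases h : (Finset.univ.filter (fun i => η i = true)).card = k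
    · rw [if_pos h]
    · rw [if_neg h]
      unfold extC
      rw [dif_neg h, zero_mul]
  rw [h1, Finset.sum_subtype (p := fun η : Cfg N =>
    (Finset.univ.filter (fun i => η i = true)).card = k) _ (by simp)]
  refine Finset.sum_congr rfl fun η _ => ?_
  unfold extC
  rw [dif_pos η.2]

theorem stc_extC_val (π : Conf N k → ℝ) (η : Conf N k) : extC π η.1 = π η := by
  unfold extC
  rw [dif_pos η.2]

theorem stc_stat_iff (hN : 1 ≤ N) (w : ℕ → ℝ) (π' : Cfg N → ℝ) (f : Cfg N → ℝ) :
    (∑ η, π' η * stp (rE w) (lE w) (full N) f η = ∑ η, π' η * f η) ↔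
    ∑ η, π' η * (∑ x ∈ full N, (rE w x * (f (RmS (full N) x η) - f η) +
        lE w x * (f (LmS (full N) x η) - f η))) = 0 := by
  have hNr : (0 : ℝ) < N := by exact_mod_cast hN
  have h : ∑ η, π' η * stp (rE w) (lE w) (full N) f η = ∑ η, π' η * f η +
      (∑ η, π' η * (∑ x ∈ full N, (rE w x * (f (RmS (full N) x η) - f η) +
        lE w x * (f (LmS (full N) x η) - f η)))) / (2 * N) := by
    rw [Finset.sum_div, ← Finset.sum_add_distrib]
    refine Finset.sum_congr rfl fun η _ => ?_
    unfold stp
    ring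
  rw [h]
  constructor
  · intro hh
    have h2 : (∑ η, π' η * (∑ x ∈ full N, (rE w x * (f (RmS (full N) x η) - f η) +
        lE w x * (f (LmS (full N) x η) - f η)))) / (2 * N) = 0 := by linarith
    rcases div_eq_zero_iff.mp h2 with h3 | h3
    · exact h3
    · exfalso; linarith
  · intro hh
    rw [hh, zero_div, add_zero]

theorem stc_ext {w : ℕ → ℝ} (hN : 1 ≤ N) {π : Conf N k → ℝ} (hπ : IsStatC w N k π) :
    IsStat N k (rE w) (lE w) (extC π) := by
  refine ⟨?_, ?_, ?_, ?_⟩
  · intro η
    unfold extC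
    split_ifs
    · exact hπ.nonneg _
    · exact le_rfl
  · intro η hη
    unfold extC
    rw [dif_neg]
    intro hc
    exact hη ((stc_ht η).trans hc)
  · have := stc_sum π (fun _ => (1 : ℝ))
    simp only [mul_one] at this
    rw [this]
    exact hπ.total
  · intro f
    rw [stc_stat_iff hN]
    have h := stc_sum π (fun η => ∑ x ∈ full N, (rE w x * (f (RmS (full N) x η) - f η) +
        lE w x * (f (LmS (full N) x η) - f η)))
    rw [h]
    have h2 : ∀ η : Conf N k, π η * (∑ x ∈ full N, (rE w x * (f (RmS (full N) x η.1) - f η.1) +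
        lE w x * (f (LmS (full N) x η.1) - f η.1))) = ∑ ξ : Conf N k, f ξ.1 * (π η * genM w N k η ξ) := by
      intro η
      rw [← stc_gen, stc_lin, Finset.mul_sum]
      refine Finset.sum_congr rfl fun ξ _ => ?_
      ring
    rw [Finset.sum_congr rfl fun η _ => h2 η, Finset.sum_comm]
    refine Finset.sum_eq_zero fun ξ _ => ?_
    rw [← Finset.mul_sum, hπ.stat ξ, mul_zero]

theorem stc_res {w : ℕ → ℝ} (hN : 1 ≤ N) {π' : Cfg N → ℝ} (hπ : IsStat N k (rE w) (lE w) π') :
    IsStatC w N k (fun η => π' η.1) := by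
  have hs : extC (fun η : Conf N k => π' η.1) = π' := by
    funext η
    unfold extC
    split_ifs with h
    · rfl
    · refine (hπ.supp η ?_).symm
      rw [stc_ht]
      exact h
  refine ⟨fun η => hπ.nonneg _, ?_, ?_⟩
  · have := stc_sum (fun η : Conf N k => π' η.1) (fun _ => (1 : ℝ))
    simp only [mul_one] at this
    rw [← this, hs]
    exact hπ.total
  · intro ξ
    classical
    have h1 := hπ.stat (fun ζ => if ζ = ξ.1 then 1 else 0)
    rw [stc_stat_iff hN] at h1
    have h2 := stc_sum (fun η : Conf N k => π' η.1) (fun η => ∑ x ∈ full N,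
      (rE w x * ((if RmS (full N) x η = ξ.1 then (1 : ℝ) else 0) - (if η = ξ.1 then 1 else 0)) +
        lE w x * ((if LmS (full N) x η = ξ.1 then (1 : ℝ) else 0) - (if η = ξ.1 then 1 else 0))))
    rw [hs] at h2
    rw [← h1, h2]
    refine Finset.sum_congr rfl fun η _ => ?_
    congr 1
    have h3 := stc_gen w (fun ζ => if ζ = ξ.1 then (1 : ℝ) else 0) η
    rw [← h3]
    unfold genM
    congr 1
    funext ζ
    by_cases h : ζ = ξ
    · rw [if_pos h, if_pos (by rw [h])]
    · rw [if_neg h, if_neg (fun hh => h (Subtype.ext hh))]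

theorem st_STC (hX : ST_STATEX) : ST_STC := by
  intro N k w hN hk hw
  refine ⟨stc_ht, ?_, fun π hπ => stc_ext hN hπ⟩
  obtain ⟨π', h1, h2⟩ := hX N k (rE w) (lE w) hN hk (stc_adm hw N)
  refine ⟨fun η => π' η.1, stc_res hN h1, ?_⟩
  intro π hπ
  have h3 := h2 _ (stc_ext hN hπ)
  funext η
  rw [← stc_extC_val π η, h3]

end Pool.Agent.Helper98.EX

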