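import Pool.Agent.Helper98.EX.Stmts

/-! EX, module STRETCH: the current through a weak stretch -/

namespace Pool.Agent.Helper98.EX

open Finset

variable {N : ℕ}

/-- indicator of an occupied site, as a real number -/
noncomputable def stretch_o (η : Cfg N) (x : ℕ) : ℝ := if occ η x = true then 1 else 0

theorem stretch_o_nonneg (η : Cfg N) (x : ℕ) : 0 ≤ stretch_o η x := by
  unfold stretch_o; split_ifs <;> norm_num

theorem stretch_o_le (η : Cfg N) (x : ℕ) : stretch_o η x ≤ 1 := by
  unfold stretch_o; split_ifs <;> norm_num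

/-- the contribution of one bond -/
theorem stretch_term (η : Cfg N) (r l : ℕ → ℝ) (e : ℝ) (he : 0 ≤ e) {x : ℕ} (h1 : 1 ≤ x)
    (h2 : x < N) (hr : r x ≤ 1 / 2 + e) (hl : 1 / 2 - e ≤ l x) :
    r x * ((ht (Rm x η) x : ℝ) - ht η x) + l x * ((ht (Lm x η) x : ℝ) - ht η x) ≤
      1 / 2 * (stretch_o η (x - 1) - stretch_o η x) + e := by
  have a1 := ht_succ η (by omega : x - 1 < N)
  have a2 := ht_succ η h2
  have e1 : x - 1 + 1 = x := by omega
  rw [e1] at a1
  have b1 := ht_Rm η h1 h2
  have b2 := ht_Lm η h1 h2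
  unfold stretch_o
  by_cases p : occ η (x - 1) = true
  · by_cases q : occ η x = true
    · rw [if_pos p] at a1 ⊢
      rw [if_pos q] at a2 ⊢
      have c1 : ht (Rm x η) x = ht η x := by omega
      have c2 : ht (Lm x η) x = ht η x := by omega
      rw [c1, c2]; simp only [sub_self, mul_zero, add_zero]; linarith
    · rw [if_pos p] at a1 ⊢
      rw [if_neg q] at a2 ⊢
      have c1 : ht (Rm x η) x = ht η x + 1 := by omega
      have c2 : ht (Lm x η) x = ht η x := by omega
      rw [c1, c2]; push_cast; linarith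
  · by_cases q : occ η x = true
    · rw [if_neg p] at a1 ⊢
      rw [if_pos q] at a2 ⊢
      have c1 : ht (Rm x η) x = ht η x := by omega
      have c2 : ht (Lm x η) x + 1 = ht η x := by omega
      have c3 : (ht (Lm x η) x : ℝ) = ht η x - 1 := by
        rw [← c2]; push_cast; ring
      rw [c1, c3]; linarith
    · rw [if_neg p] at a1 ⊢
      rw [if_neg q] at a2 ⊢
      have c1 : ht (Rm x η) x = ht η x := by omega
      have c2 : ht (Lm x η) x = ht η x := by omega
      rw [c1, c2]; simp only [sub_self, mul_zero, add_zero]; linarith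

/-- the sum over a window changes only through the height at the mark -/
theorem stretch_sumR (η : Cfg N) (s : Finset ℕ) (x : ℕ) :
    ∑ z ∈ s, (ht (Rm x η) z : ℝ) - ∑ z ∈ s, (ht η z : ℝ) =
      if x ∈ s then (ht (Rm x η) x : ℝ) - ht η x else 0 := by
  rw [← Finset.sum_sub_distrib]
  split_ifs with h
  · apply Finset.sum_eq_single_of_mem x h
    intro z _ hz
    rw [ht_Rm_ne η hz, sub_self]
  · apply Finset.sum_eq_zero
    intro z hz
    rw [ht_Rm_ne η (by rintro rfl; exact h hz), sub_self]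

theorem stretch_sumL (η : Cfg N) (s : Finset ℕ) (x : ℕ) :
    ∑ z ∈ s, (ht (Lm x η) z : ℝ) - ∑ z ∈ s, (ht η z : ℝ) =
      if x ∈ s then (ht (Lm x η) x : ℝ) - ht η x else 0 := by
  rw [← Finset.sum_sub_distrib]
  split_ifs with h
  · apply Finset.sum_eq_single_of_mem x h
    intro z _ hz
    rw [ht_Lm_ne η hz, sub_self]
  · apply Finset.sum_eq_zero
    intro z hz
    rw [ht_Lm_ne η (by rintro rfl; exact h hz), sub_self]

/-- one step -/
theorem stretch_step (r l : ℕ → ℝ) (A m' : ℕ) (η : Cfg N) (hm : 1 ≤ m') (hN : A + m' < N)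
    (hrl : ∀ x, A < x → x ≤ A + m' → r x ≤ 1 / 2 + 1 / m' ∧ 1 / 2 - 1 / m' ≤ l x) :
    stp r l (full N) (fun ξ => ∑ x ∈ Finset.Ioc A (A + m'), (ht ξ x : ℝ)) η ≤
      ∑ x ∈ Finset.Ioc A (A + m'), (ht η x : ℝ) + 3 / 2 / (2 * N) := by
  have hN0 : (0 : ℝ) < N := by
    have : 0 < N := by omega
    exact_mod_cast this
  have hm0 : (0 : ℝ) < m' := by
    have : 0 < m' := by omega
    exact_mod_cast this
  rw [stp_open]
  apply add_le_add le_rfl
  apply div_le_div_of_nonneg_right _ (by positivity)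
  have h1 : ∀ x ∈ full N,
      (r x * (∑ z ∈ Finset.Ioc A (A + m'), (ht (Rm x η) z : ℝ) -
          ∑ z ∈ Finset.Ioc A (A + m'), (ht η z : ℝ)) +
        l x * (∑ z ∈ Finset.Ioc A (A + m'), (ht (Lm x η) z : ℝ) -
          ∑ z ∈ Finset.Ioc A (A + m'), (ht η z : ℝ))) ≤
      if x ∈ Finset.Ioc A (A + m') then
        1 / 2 * (stretch_o η (x - 1) - stretch_o η x) + 1 / m' else 0 := by
    intro x hx
    rw [stretch_sumR, stretch_sumL]
    split_ifs with h
    · rw [Finset.mem_Ioc] at h
      rw [full, Finset.mem_Ico] at hx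
      exact stretch_term η r l (1 / m') (by positivity) hx.1 hx.2 (hrl x h.1 h.2).1
        (hrl x h.1 h.2).2
    · simp
  refine (Finset.sum_le_sum h1).trans ?_
  rw [← Finset.sum_filter, Finset.filter_mem_eq_inter]
  have h2 : full N ∩ Finset.Ioc A (A + m') = Finset.Ioc A (A + m') := by
    apply Finset.inter_eq_right.2
    intro x hx
    rw [Finset.mem_Ioc] at hx
    rw [full, Finset.mem_Ico]; omega
  rw [h2, Finset.sum_add_distrib, ← Finset.mul_sum]
  have h3 : ∀ d, ∑ x ∈ Finset.Ioc A (A + d), (stretch_o η (x - 1) - stretch_o η x) =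
      stretch_o η A - stretch_o η (A + d) := by
    intro d
    induction d with
    | zero => simp
    | succ d ih =>
      have e : A + (d + 1) = A + d + 1 := by ring
      rw [e, Finset.sum_Ioc_succ_top (by omega), ih]
      simp only [Nat.add_sub_cancel]
      ring
  rw [h3, Finset.sum_const, Nat.card_Ioc, nsmul_eq_mul]
  have e2 : A + m' - A = m' := by omega
  rw [e2]
  have h4 : (m' : ℝ) * (1 / m') = 1 := by field_simp
  rw [h4]
  have := stretch_o_le η A
  have := stretch_o_nonneg η (A + m')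
  linarith

theorem st_STRETCH : ST_STRETCH := by
  intro N r l A m' j η hA hm hN hrl
  induction j generalizing η with
  | zero => simp [ev]
  | succ j ih =>
    rw [ev_succ]
    refine (stp_mono hA (g := fun ζ => ∑ x ∈ Finset.Ioc A (A + m'), (ht ζ x : ℝ) +
      3 / 2 * (j : ℝ) / (2 * N)) (fun ζ => ih ζ) η).trans ?_
    rw [stp_add r l (full N) (fun ζ => ∑ x ∈ Finset.Ioc A (A + m'), (ht ζ x : ℝ))
      (fun _ => 3 / 2 * (j : ℝ) / (2 * N)), stp_const]
    have := stretch_step r l A m' η hm hN hrl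
    have e : 3 / 2 * ((j + 1 : ℕ) : ℝ) / (2 * N) = 3 / 2 / (2 * N) + 3 / 2 * (j : ℝ) / (2 * N) := by
      push_cast; ring
    rw [e]
    linarith

end Pool.Agent.Helper98.EX
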