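import Pool.Agent.Helper98.EX.Stmts

/-! EX, module WALL: comparison with the last `n` particles behind a moving wall -/

namespace Pool.Agent.Helper98.EX

open Finset

/-- the heights `≤ Z` after a right mark -/
theorem wall_R {N : ℕ} {c Z x : ℕ} {η ξ : Cfg N} (hZN : Z ≤ N)
    (h : ∀ z, z ≤ Z → c + ht ξ z ≤ ht η z) (z : ℕ) (hz : z < Z) :
    c + ht (RmS (Finset.Ico 1 Z) x ξ) z ≤ ht (RmS (full N) x η) z := by
  by_cases hx : x ∈ Finset.Ico 1 Z
  · have hx' : x ∈ full N := by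
      rw [Finset.mem_Ico] at hx
      rw [full, Finset.mem_Ico]; omega
    rw [RmS, if_pos hx, RmS, if_pos hx']
    rw [Finset.mem_Ico] at hx
    by_cases e : z = x
    · subst e
      rw [ht_Rm η hx.1 (by omega), ht_Rm ξ hx.1 (by omega)]
      have a := h (z - 1) (by omega)
      have b := h (z + 1) (by omega)
      omega
    · rw [ht_Rm_ne η e, ht_Rm_ne ξ e]; exact h z hz.le
  · rw [RmS, if_neg hx]
    rw [Finset.mem_Ico] at hx
    by_cases hx' : x ∈ full N
    · rw [RmS, if_pos hx']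
      rw [full, Finset.mem_Ico] at hx'
      rw [ht_Rm_ne η (by omega)]
      exact h z hz.le
    · rw [RmS, if_neg hx']; exact h z hz.le

/-- the heights `≤ Z` after a left mark -/
theorem wall_L {N : ℕ} {c Z x : ℕ} {η ξ : Cfg N} (hZN : Z ≤ N)
    (h : ∀ z, z ≤ Z → c + ht ξ z ≤ ht η z) (z : ℕ) (hz : z < Z) :
    c + ht (LmS (Finset.Ico 1 Z) x ξ) z ≤ ht (LmS (full N) x η) z := by
  by_cases hx : x ∈ Finset.Ico 1 Z
  · have hx' : x ∈ full N := by
      rw [Finset.mem_Ico] at hx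
      rw [full, Finset.mem_Ico]; omega
    rw [LmS, if_pos hx, LmS, if_pos hx']
    rw [Finset.mem_Ico] at hx
    by_cases e : z = x
    · subst e
      rw [ht_Lm η hx.1 (by omega), ht_Lm ξ hx.1 (by omega)]
      have a := h (z - 1) (by omega)
      have b := h (z + 1) (by omega)
      omega
    · rw [ht_Lm_ne η e, ht_Lm_ne ξ e]; exact h z hz.le
  · rw [LmS, if_neg hx]
    rw [Finset.mem_Ico] at hx
    by_cases hx' : x ∈ full N
    · rw [LmS, if_pos hx']
      rw [full, Finset.mem_Ico] at hx'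
      rw [ht_Lm_ne η (by omega)]
      exact h z hz.le
    · rw [LmS, if_neg hx']; exact h z hz.le

theorem wall_RZ {N : ℕ} {Z x : ℕ} {ξ : Cfg N} :
    ht (RmS (Finset.Ico 1 Z) x ξ) Z = ht ξ Z := by
  by_cases hx : x ∈ Finset.Ico 1 Z
  · rw [RmS, if_pos hx]
    rw [Finset.mem_Ico] at hx
    exact ht_Rm_ne ξ (by omega)
  · rw [RmS, if_neg hx]

theorem wall_LZ {N : ℕ} {Z x : ℕ} {ξ : Cfg N} :
    ht (LmS (Finset.Ico 1 Z) x ξ) Z = ht ξ Z := by
  by_cases hx : x ∈ Finset.Ico 1 Z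
  · rw [LmS, if_pos hx]
    rw [Finset.mem_Ico] at hx
    exact ht_Lm_ne ξ (by omega)
  · rw [LmS, if_neg hx]

/-- extension of the comparison to the new wall -/
theorem wall_ext {N : ℕ} {c Z Z' : ℕ} {η ξ : Cfg N} (hZZ : Z ≤ Z')
    (h : ∀ z, z < Z → c + ht ξ z ≤ ht η z) (h0 : ht ξ Z = 0) (hb : ¬ ht η Z' < c) :
    ht ξ Z' = 0 ∧ ∀ z, z ≤ Z' → c + ht ξ z ≤ ht η z := by
  have a := ht_anti ξ hZZ
  refine ⟨by omega, ?_⟩
  intro z hz
  rcases lt_or_ge z Z with h1 | h1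
  · exact h z h1
  · have b := ht_anti ξ h1
    have d := ht_anti η hz
    omega

theorem st_WALL : ST_WALL := by
  intro N k n r l Z m y η ξ hA hnk hη hξ hZ hZN hle h0 hy
  unfold pr
  refine ev_couple_err hA (f := ind {ζ : Cfg N | ht ζ y < k}) (g := ind {ζ : Cfg N | ht ζ y < n})
    (fun _ => full N) (fun i => Finset.Ico 1 (Z i)) m (fun i => {ζ : Cfg N | ht ζ (Z i) < k - n})
    (ind_le_one _) (ind_nonneg _)
    (fun i a b => ht b (Z i) = 0 ∧ ∀ z, z ≤ Z i → (k - n) + ht b z ≤ ht a z)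
    ?_ ?_ ?_ ?_ ⟨h0, hle⟩
  · intro i a b _ hab hB
    exact wall_ext (hZ i) (fun z hz => hab.2 z hz.le) hab.1 hB
  · intro i a b x _ _ _ hab hB
    exact wall_ext (hZ i) (wall_R (hZN i) hab.2) (wall_RZ.trans hab.1) hB
  · intro i a b x _ _ _ hab hB
    exact wall_ext (hZ i) (wall_L (hZN i) hab.2) (wall_LZ.trans hab.1) hB
  · intro a b hab
    have h1 := hab.2 y hy
    by_cases h2 : ht a y < k
    · rw [ind_of_mem (show b ∈ {ζ : Cfg N | ht ζ y < n} by
        show ht b y < n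
        omega)]
      exact ind_le_one _ _
    · rw [ind_of_not_mem (show a ∉ {ζ : Cfg N | ht ζ y < k} from h2)]
      exact ind_nonneg _ _

end Pool.Agent.Helper98.EX
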